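import Mathlib

set_option autoImplicit false

open Filter Topology

namespace Pool.Agent.Y253.Qr

/-- The variable `q`, in the field `ℚ((q))` of formal Laurent series. -/
noncomputable def q : LaurentSeries ℚ := HahnSeries.single 1 1

/-- The `q`-integer `[n]_q = (1 - q ^ n) / (1 - q)`, in the field `ℚ((q))`. -/
noncomputable def qInt (n : ℕ) : LaurentSeries ℚ := (1 - q ^ n) / (1 - q)

/-- The real number `[[c 0, …, c N]] = c 0 - 1 / (c 1 - 1 / (⋯ - 1 / c N))`. -/
noncomputable def ncf : ℕ → (ℕ → ℕ) → ℝ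
  | 0, c => c 0
  | N + 1, c => c 0 - 1 / ncf N (fun j => c (j + 1))

/-- The `q`-deformed truncation
`[[c 0, …, c N]]_q = [c 0]_q - q ^ (c 0 - 1) / ([c 1]_q - q ^ (c 1 - 1) / (⋯ / [c N]_q))`,
in the field `ℚ((q))`. -/
noncomputable def qncf : ℕ → (ℕ → ℕ) → LaurentSeries ℚ
  | 0, c => qInt (c 0)
  | N + 1, c => qInt (c 0) - q ^ (c 0 - 1) / qncf N (fun j => c (j + 1))

/-- `q`-adic convergence of the sequence `f` to `g`: for each `n`, from some `N` on, the difference
`f N - g` has no coefficient of degree less than `n`. -/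
def QLimit (f : ℕ → LaurentSeries ℚ) (g : LaurentSeries ℚ) : Prop :=
  ∀ n : ℤ, ∀ᶠ N in atTop, ∀ m : ℤ, m < n → (f N).coeff m = g.coeff m

/-- `F` is the map `x ↦ [x]_q`: whenever integers `c j ≥ 2` are such that the truncations
`[[c 0, …, c N]]` converge to the real number `x`, the `q`-deformed truncations
`[[c 0, …, c N]]_q` converge `q`-adically to `F x`; and `[x - 1]_q = q⁻¹ ([x]_q - 1)` for
every real `x`. -/
def IsQDeformation (F : ℝ → LaurentSeries ℚ) : Prop :=
  (∀ c : ℕ → ℕ, (∀ j, 2 ≤ c j) → ∀ x : ℝ, Tendsto (fun N => ncf N c) atTop (𝓝 x) →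
    QLimit (fun N => qncf N c) (F x)) ∧
  ∀ x : ℝ, F (x - 1) = q⁻¹ * (F x - 1)

/-- The radius of convergence of a Laurent series: that of the power series formed by its
coefficients of degree `n ≥ 0` (a finite principal part does not matter). -/
noncomputable def radius (g : LaurentSeries ℚ) : ENNReal :=
  (FormalMultilinearSeries.ofScalars ℂ (fun n : ℕ => ((g.coeff (n : ℤ) : ℚ) : ℂ))).radius

end Pool.Agent.Y253.Qr
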