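import Mathlib
import Pool.Agent.Y253.Qr.Defs

set_option autoImplicit false

open Filter Topology

namespace Pool.Agent.Y253.Qr

theorem ncf_ge (N : ℕ) : ∀ c : ℕ → ℕ, (∀ j, 2 ≤ c j) → 1 + 1 / ((N:ℝ) + 1) ≤ ncf N c := by
  induction N with
  | zero =>
    intro c hc
    simp only [ncf]
    norm_num
    exact hc 0
  | succ N ih =>
    intro c hc
    have h2 : (2:ℝ) ≤ c 0 := by exact_mod_cast hc 0
    have h := ih (fun j => c (j + 1)) (fun j => hc (j + 1))
    simp only [ncf]
    have hN : (0:ℝ) < (N:ℝ) + 1 := by positivity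
    have h3 : 1 / ncf N (fun j => c (j + 1)) ≤ 1 / (1 + 1 / ((N:ℝ) + 1)) :=
      one_div_le_one_div_of_le (by positivity) h
    have h4 : 1 / (1 + 1 / ((N:ℝ) + 1)) = 1 - 1 / ((N:ℝ) + 2) := by field_simp; ring
    push_cast
    have h5 : (N:ℝ) + 1 + 1 = N + 2 := by ring
    rw [h5]
    linarith

theorem ncf_one_lt {N : ℕ} {c : ℕ → ℕ} (hc : ∀ j, 2 ≤ c j) : 1 < ncf N c := by
  have h := ncf_ge N c hc
  have : (0:ℝ) < 1 / ((N:ℝ) + 1) := by positivity
  linarith

theorem ncf_le {N : ℕ} {c : ℕ → ℕ} (hc : ∀ j, 2 ≤ c j) : ncf N c ≤ c 0 := by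
  cases N with
  | zero => simp [ncf]
  | succ N =>
    simp only [ncf]
    have : 0 ≤ 1 / ncf N (fun j => c (j + 1)) := by
      have := ncf_one_lt (N := N) (c := fun j => c (j + 1)) (fun j => hc (j + 1))
      positivity
    linarith

/-- the next complete quotient -/
noncomputable def next (x : ℝ) : ℝ := 1 / ((⌊x⌋₊ : ℝ) + 1 - x)

/-- the digits of the expansion -/
noncomputable def dig (x : ℝ) (j : ℕ) : ℕ := ⌊next^[j] x⌋₊ + 1

theorem dig_zero (x : ℝ) : dig x 0 = ⌊x⌋₊ + 1 := rfl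
theorem dig_succ (x : ℝ) (j : ℕ) : dig x (j + 1) = dig (next x) j := rfl

theorem next_ge {x : ℝ} (hx : 1 ≤ x) : 1 ≤ next x := by
  have h1 := Nat.floor_le (a := x) (by linarith)
  have h2 := Nat.lt_floor_add_one x
  unfold next
  rw [le_div_iff₀ (by linarith)]
  linarith

theorem dig_ge {x : ℝ} (hx : 1 ≤ x) (j : ℕ) : 2 ≤ dig x j := by
  induction j generalizing x with
  | zero =>
    rw [dig_zero]
    have : 1 ≤ ⌊x⌋₊ := Nat.le_floor (by simpa using hx)
    omega
  | succ j ih => rw [dig_succ]; exact ih (next_ge hx)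

theorem dig_conv (N : ℕ) : ∀ x : ℝ, 1 ≤ x →
    0 ≤ ncf N (dig x) - x ∧ ncf N (dig x) - x ≤ 1 / ((N:ℝ) + 1) := by
  induction N with
  | zero =>
    intro x hx
    have h1 := Nat.floor_le (a := x) (by linarith)
    have h2 := Nat.lt_floor_add_one x
    simp only [ncf, dig_zero]
    push_cast
    constructor
    · linarith
    · norm_num
      linarith
  | succ N ih =>
    intro x hx
    obtain ⟨h1, h2⟩ := ih (next x) (next_ge hx)
    have hnext := next_ge hx
    set t := ncf N (dig (next x)) with ht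
    have ht1 : 1 + 1 / ((N:ℝ) + 1) ≤ t := ncf_ge N _ (dig_ge hnext)
    have e : ncf (N + 1) (dig x) = (⌊x⌋₊:ℝ) + 1 - 1 / t := by
      simp only [ncf, dig_zero]
      push_cast
      rfl
    have hpos : 0 < (⌊x⌋₊:ℝ) + 1 - x := by linarith [Nat.lt_floor_add_one x]
    have e2 : x = (⌊x⌋₊:ℝ) + 1 - 1 / next x := by
      unfold next
      rw [one_div_one_div]
      ring
    have hN : (0:ℝ) < (N:ℝ) + 1 := by positivity
    have htpos : 0 < t := by
      have : (0:ℝ) < 1 / ((N:ℝ) + 1) := by positivity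
      linarith
    have hnpos : 0 < next x := by linarith
    have e3 : ncf (N + 1) (dig x) - x = (t - next x) / (t * next x) := by
      rw [e]
      nth_rw 2 [e2]
      field_simp
      ring
    rw [e3]
    constructor
    · positivity
    · calc (t - next x) / (t * next x) ≤ (t - next x) / (t * 1) := by gcongr
        _ = (t - next x) / t := by rw [mul_one]
        _ ≤ (1 / ((N:ℝ) + 1)) / (1 + 1 / ((N:ℝ) + 1)) := by gcongr
        _ = 1 / (((N + 1 : ℕ) : ℝ) + 1) := by push_cast; field_simp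

theorem dig_tendsto {x : ℝ} (hx : 1 ≤ x) : Tendsto (fun N => ncf N (dig x)) atTop (𝓝 x) := by
  have h : Tendsto (fun N => ncf N (dig x) - x) atTop (𝓝 0) :=
    squeeze_zero (fun N => (dig_conv N x hx).1) (fun N => (dig_conv N x hx).2)
      tendsto_one_div_add_atTop_nhds_zero_nat
  have := h.add_const x
  simpa using this

theorem uniq_aux {c : ℕ → ℕ} (hc : ∀ j, 2 ≤ c j) {x : ℝ}
    (h : Tendsto (fun N => ncf N c) atTop (𝓝 x)) :
    1 ≤ x ∧ c 0 = ⌊x⌋₊ + 1 ∧ Tendsto (fun N => ncf N (fun j => c (j + 1))) atTop (𝓝 (next x)) := by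
  have hx : 1 ≤ x := ge_of_tendsto h (Eventually.of_forall fun N => (ncf_one_lt hc).le)
  have hc' : ∀ j, 2 ≤ (fun j => c (j + 1)) j := fun j => hc (j + 1)
  have h1 : Tendsto (fun N => 1 / ncf N (fun j => c (j + 1))) atTop (𝓝 (c 0 - x)) := by
    have := (h.comp (tendsto_add_atTop_nat 1)).const_sub (c 0 : ℝ)
    refine this.congr fun N => ?_
    simp [ncf]
  have hy0 : 0 < (c 0 : ℝ) - x := by
    have hc1 : (0:ℝ) < c 1 := by
      have : 0 < c 1 := by have := hc 1; omega
      exact_mod_cast this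
    have : 1 / (c 1 : ℝ) ≤ c 0 - x := by
      refine ge_of_tendsto h1 (Eventually.of_forall fun N => ?_)
      have h2 := ncf_le (N := N) hc'
      have h3 := ncf_one_lt (N := N) hc'
      exact one_div_le_one_div_of_le (by linarith) h2
    have : 0 < 1 / (c 1 : ℝ) := by positivity
    linarith
  have hy1 : (c 0 : ℝ) - x ≤ 1 := by
    refine le_of_tendsto h1 (Eventually.of_forall fun N => ?_)
    have h3 := ncf_one_lt (N := N) hc'
    rw [div_le_one (by linarith)]
    exact h3.le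
  have hfl : ⌊x⌋₊ = c 0 - 1 := by
    rw [Nat.floor_eq_iff (by linarith)]
    have h2 : 1 ≤ c 0 := by have := hc 0; omega
    push_cast [h2]
    constructor <;> linarith
  have hc0 : c 0 = ⌊x⌋₊ + 1 := by have := hc 0; omega
  refine ⟨hx, hc0, ?_⟩
  have h4 := h1.inv₀ hy0.ne'
  have e : next x = ((c 0 : ℝ) - x)⁻¹ := by
    unfold next
    rw [hc0, one_div]
    push_cast
    rfl
  rw [e]
  refine h4.congr fun N => ?_
  simp

theorem uniq (j : ℕ) : ∀ {c : ℕ → ℕ}, (∀ j, 2 ≤ c j) → ∀ {x : ℝ},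
    Tendsto (fun N => ncf N c) atTop (𝓝 x) → c j = dig x j := by
  induction j with
  | zero =>
    intro c hc x h
    rw [dig_zero]
    exact (uniq_aux hc h).2.1
  | succ j ih =>
    intro c hc x h
    rw [dig_succ]
    exact ih (c := fun j => c (j + 1)) (fun j => hc (j + 1)) (uniq_aux hc h).2.2

end Pool.Agent.Y253.Qr
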