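import Mathlib
import Pool.Agent.Y253.Qr.Real

set_option autoImplicit false

open Filter Topology PowerSeries

namespace Pool.Agent.Y253.Qr

/-- the `q`-integer as a power series -/
noncomputable def qI (n : ℕ) : ℚ⟦X⟧ := ∑ i ∈ Finset.range n, X ^ i

/-- the truncations as power series -/
noncomputable def pt : ℕ → (ℕ → ℕ) → ℚ⟦X⟧
  | 0, c => qI (c 0)
  | N + 1, c => qI (c 0) - X ^ (c 0 - 1) * (pt N (fun j => c (j + 1)))⁻¹

theorem cc_qI {n : ℕ} (hn : 1 ≤ n) : constantCoeff (qI n) = 1 := by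
  obtain ⟨m, rfl⟩ := Nat.exists_eq_add_of_le' hn
  unfold qI
  rw [Finset.sum_range_succ']
  simp

theorem cc_pt {N : ℕ} {c : ℕ → ℕ} (hc : ∀ j, 2 ≤ c j) : constantCoeff (pt N c) = 1 := by
  have h0 := hc 0
  cases N with
  | zero => exact cc_qI (by omega)
  | succ N =>
    simp only [pt]
    rw [map_sub, map_mul, map_pow, constantCoeff_X, zero_pow (by omega), zero_mul, sub_zero]
    exact cc_qI (by omega)

theorem pt_mul_inv {N : ℕ} {c : ℕ → ℕ} (hc : ∀ j, 2 ≤ c j) : pt N c * (pt N c)⁻¹ = 1 :=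
  PowerSeries.mul_inv_cancel _ (by rw [cc_pt hc]; exact one_ne_zero)

theorem q_eq : q = ((X : ℚ⟦X⟧) : LaurentSeries ℚ) := by
  rw [PowerSeries.coe_X]; rfl

theorem one_sub_q : (1 : LaurentSeries ℚ) - q ≠ 0 := by
  rw [q_eq, ← PowerSeries.coe_one, ← PowerSeries.coe_sub]
  intro h
  have h2 : (1 - X : ℚ⟦X⟧) = 0 := by
    apply HahnSeries.ofPowerSeries_injective (Γ := ℤ)
    rw [h, map_zero]
  have h3 := congrArg constantCoeff h2
  simp at h3

theorem q_ne : q ≠ 0 := by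
  unfold q
  simp

theorem qInt_eq (n : ℕ) : qInt n = ((qI n : ℚ⟦X⟧) : LaurentSeries ℚ) := by
  unfold qInt
  rw [div_eq_iff one_sub_q]
  have h : (qI n : ℚ⟦X⟧) * (1 - X) = 1 - X ^ n := by
    unfold qI
    exact geom_sum_mul_neg X n
  rw [q_eq, ← PowerSeries.coe_one, ← PowerSeries.coe_sub, ← PowerSeries.coe_mul, h,
    PowerSeries.coe_sub, PowerSeries.coe_pow]

theorem qncf_eq (N : ℕ) : ∀ {c : ℕ → ℕ}, (∀ j, 2 ≤ c j) →
    qncf N c = ((pt N c : ℚ⟦X⟧) : LaurentSeries ℚ) := by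
  induction N with
  | zero =>
    intro c hc
    simp only [qncf, pt]
    exact qInt_eq _
  | succ N ih =>
    intro c hc
    have hc' : ∀ j, 2 ≤ (fun j => c (j + 1)) j := fun j => hc (j + 1)
    simp only [qncf, pt]
    rw [ih hc', PowerSeries.coe_sub, PowerSeries.coe_mul, qInt_eq, PowerSeries.coe_pow, ← q_eq]
    have h := congrArg (fun f : ℚ⟦X⟧ => (f : LaurentSeries ℚ)) (pt_mul_inv (N := N) hc')
    simp only [PowerSeries.coe_mul, PowerSeries.coe_one] at h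
    rw [div_eq_mul_inv, eq_inv_of_mul_eq_one_right h]

theorem pt_cauchy (N : ℕ) : ∀ {c : ℕ → ℕ}, (∀ j, 2 ≤ c j) → X ^ (N + 1) ∣ pt (N + 1) c - pt N c := by
  induction N with
  | zero =>
    intro c hc
    have h0 := hc 0
    simp only [pt]
    obtain ⟨k, hk⟩ : ∃ k, c 0 - 1 = k + 1 := ⟨c 0 - 2, by omega⟩
    rw [hk]
    exact ⟨- (X ^ k * (qI (c (0 + 1)))⁻¹), by ring⟩
  | succ N ih =>
    intro c hc
    have h0 := hc 0
    have hc' : ∀ j, 2 ≤ (fun j => c (j + 1)) j := fun j => hc (j + 1)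
    obtain ⟨k, hk⟩ : ∃ k, c 0 - 1 = k + 1 := ⟨c 0 - 2, by omega⟩
    obtain ⟨D, hD⟩ := ih hc'
    have h1 := pt_mul_inv (N := N) hc'
    have h2 := pt_mul_inv (N := N + 1) hc'
    have e1 : pt (N + 1 + 1) c = qI (c 0) - X ^ (c 0 - 1) * (pt (N + 1) (fun j => c (j + 1)))⁻¹ := rfl
    have e2 : pt (N + 1) c = qI (c 0) - X ^ (c 0 - 1) * (pt N (fun j => c (j + 1)))⁻¹ := rfl
    rw [e1, e2, hk]
    set A := pt (N + 1) (fun j => c (j + 1))
    set B := pt N (fun j => c (j + 1))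
    refine ⟨X ^ k * D * A⁻¹ * B⁻¹, ?_⟩
    have e3 : A⁻¹ = A⁻¹ * (B * B⁻¹) := by rw [h1, mul_one]
    have e4 : B⁻¹ = B⁻¹ * (A * A⁻¹) := by rw [h2, mul_one]
    have e5 : B⁻¹ - A⁻¹ = (A - B) * A⁻¹ * B⁻¹ := by
      calc B⁻¹ - A⁻¹ = B⁻¹ * (A * A⁻¹) - A⁻¹ * (B * B⁻¹) := by rw [← e3, ← e4]
        _ = _ := by ring
    calc qI (c 0) - X ^ (k + 1) * A⁻¹ - (qI (c 0) - X ^ (k + 1) * B⁻¹)
        = X ^ (k + 1) * (B⁻¹ - A⁻¹) := by ring
      _ = X ^ (k + 1) * ((X ^ (N + 1) * D) * A⁻¹ * B⁻¹) := by rw [e5, hD]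
      _ = _ := by ring

/-- the `q`-adic limit -/
noncomputable def lim (c : ℕ → ℕ) : ℚ⟦X⟧ := PowerSeries.mk fun n => coeff n (pt n c)

theorem coeff_pt {c : ℕ → ℕ} (hc : ∀ j, 2 ≤ c j) {n N : ℕ} (h : n ≤ N) :
    coeff n (pt N c) = coeff n (lim c) := by
  unfold lim
  rw [coeff_mk]
  induction N, h using Nat.le_induction with
  | base => rfl
  | succ N hN ih =>
    rw [← ih, ← sub_eq_zero, ← map_sub]
    exact X_pow_dvd_iff.mp (pt_cauchy N hc) n (by omega)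

theorem dvd_lim {c : ℕ → ℕ} (hc : ∀ j, 2 ≤ c j) (N : ℕ) : X ^ (N + 1) ∣ pt N c - lim c := by
  rw [X_pow_dvd_iff]
  intro m hm
  rw [map_sub, coeff_pt hc (by omega), sub_self]

theorem qlimit_lim {c : ℕ → ℕ} (hc : ∀ j, 2 ≤ c j) :
    QLimit (fun N => qncf N c) ((lim c : ℚ⟦X⟧) : LaurentSeries ℚ) := by
  intro n
  filter_upwards [eventually_ge_atTop n.toNat] with N hN m hm
  rw [qncf_eq N hc]
  rcases lt_or_ge m 0 with h | h
  · rw [PowerSeries.coeff_coe, PowerSeries.coeff_coe, if_pos h, if_pos h]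
  · obtain ⟨k, rfl⟩ := Int.eq_ofNat_of_zero_le h
    rw [LaurentSeries.coeff_coe_powerSeries, LaurentSeries.coeff_coe_powerSeries]
    exact coeff_pt hc (by omega)

theorem qlimit_unique {f : ℕ → LaurentSeries ℚ} {g h : LaurentSeries ℚ} (hg : QLimit f g)
    (hh : QLimit f h) : g = h := by
  ext m
  obtain ⟨N, h1, h2⟩ := ((hg (m + 1)).and (hh (m + 1))).exists
  rw [← h1 m (by omega), h2 m (by omega)]

end Pool.Agent.Y253.Qr
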