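import Mathlib
import Pool.Agent.Y253.Qr.Pow

set_option autoImplicit false

open Filter Topology PowerSeries

namespace Pool.Agent.Y253.Qr

/-- the integer part of the construction -/
noncomputable def qZ (m : ℤ) : LaurentSeries ℚ := (1 - q ^ m) / (1 - q)

/-- the map `x ↦ [x]_q` -/
noncomputable def Fq (x : ℝ) : LaurentSeries ℚ :=
  q ^ (⌊x⌋ - 1) * ((lim (dig (Int.fract x + 1)) : ℚ⟦X⟧) : LaurentSeries ℚ) + qZ (⌊x⌋ - 1)

theorem Fq_shift (x : ℝ) : Fq (x - 1) = q⁻¹ * (Fq x - 1) := by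
  have h1 : Int.fract (x - 1) = Int.fract x := by
    have := Int.fract_sub_one x
    exact this
  have h2 : ⌊x - 1⌋ = ⌊x⌋ - 1 := Int.floor_sub_one x
  unfold Fq qZ
  rw [h1, h2]
  have hq := q_ne
  have hq1 := one_sub_q
  have e : q ^ (⌊x⌋ - 1) = q * q ^ (⌊x⌋ - 1 - 1) := by
    rw [← zpow_one_add₀ hq]
    congr 1
    ring
  rw [e]
  field_simp
  ring

/-- comparing two sequences which differ by `m` in the first digit only -/
theorem pt_first {c c' : ℕ → ℕ} {m : ℕ} (hc' : ∀ j, 2 ≤ c' j) (h0 : c 0 = c' 0 + m)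
    (h : ∀ j, c (j + 1) = c' (j + 1)) (N : ℕ) :
    pt N c = X ^ m * pt N c' + qI m := by
  have hq : qI (c' 0 + m) = X ^ m * qI (c' 0) + qI m := by
    unfold qI
    rw [add_comm (c' 0) m, Finset.sum_range_add, add_comm, Finset.mul_sum]
    simp only [pow_add]
  have h2 := hc' 0
  cases N with
  | zero =>
    simp only [pt]
    rw [h0, hq]
  | succ N =>
    simp only [pt]
    have e : (fun j => c (j + 1)) = fun j => c' (j + 1) := funext h
    have e2 : c 0 - 1 = m + (c' 0 - 1) := by omega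
    rw [e, e2, h0, hq, pow_add]
    ring

theorem lim_first {c c' : ℕ → ℕ} {m : ℕ} (hc : ∀ j, 2 ≤ c j) (hc' : ∀ j, 2 ≤ c' j)
    (h0 : c 0 = c' 0 + m) (h : ∀ j, c (j + 1) = c' (j + 1)) :
    lim c = X ^ m * lim c' + qI m := by
  rw [← sub_eq_zero]
  ext n
  have h1 : X ^ (n + 1) ∣ lim c - (X ^ m * lim c' + qI m) := by
    obtain ⟨A, hA⟩ := dvd_lim hc n
    obtain ⟨B, hB⟩ := dvd_lim hc' n
    have h2 := pt_first hc' h0 h n
    refine ⟨X ^ m * B - A, ?_⟩
    linear_combination h2 - hA + X ^ m * hB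
  rw [X_pow_dvd_iff.mp h1 n (by omega)]
  simp

theorem Fq_expansion (c : ℕ → ℕ) (hc : ∀ j, 2 ≤ c j) (x : ℝ)
    (h : Tendsto (fun N => ncf N c) atTop (𝓝 x)) : QLimit (fun N => qncf N c) (Fq x) := by
  obtain ⟨hx, h0, h1⟩ := uniq_aux hc h
  have hd : ∀ j, c (j + 1) = dig (next x) j := fun j => uniq j (fun j => hc (j + 1)) h1
  have hy : 1 ≤ Int.fract x + 1 := by linarith [Int.fract_nonneg x]
  have hfl : ⌊Int.fract x + 1⌋₊ = 1 := by
    rw [Nat.floor_eq_iff (by linarith)]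
    push_cast
    constructor <;> linarith [Int.fract_nonneg x, Int.fract_lt_one x]
  have hxf : (⌊x⌋₊ : ℤ) = ⌊x⌋ := Int.natCast_floor_eq_floor (by linarith)
  have hxf' : (⌊x⌋₊ : ℝ) = (⌊x⌋ : ℝ) := by exact_mod_cast hxf
  have hnext : next (Int.fract x + 1) = next x := by
    unfold next
    rw [hfl, hxf', Int.fract]
    push_cast
    congr 1
    ring
  have hf1 : 1 ≤ ⌊x⌋₊ := Nat.le_floor (by simpa using hx)
  have hm : c 0 = dig (Int.fract x + 1) 0 + (⌊x⌋₊ - 1) := by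
    rw [dig_zero, hfl, h0]
    omega
  have hl := lim_first (m := ⌊x⌋₊ - 1) hc (dig_ge hy) hm
    (fun j => by rw [hd, dig_succ, hnext])
  have hF : Fq x = ((lim c : ℚ⟦X⟧) : LaurentSeries ℚ) := by
    unfold Fq qZ
    have e : ⌊x⌋ - 1 = ((⌊x⌋₊ - 1 : ℕ) : ℤ) := by omega
    rw [e, hl, PowerSeries.coe_add, PowerSeries.coe_mul, PowerSeries.coe_pow, ← q_eq, ← qInt_eq,
      zpow_natCast]
    rfl
  rw [hF]
  exact qlimit_lim hc

theorem Fq_isQDeformation : IsQDeformation Fq := ⟨Fq_expansion, Fq_shift⟩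

theorem F_eq_lim {F : ℝ → LaurentSeries ℚ} (hF : IsQDeformation F) {x : ℝ} (hx : 1 ≤ x) :
    F x = ((lim (dig x) : ℚ⟦X⟧) : LaurentSeries ℚ) :=
  qlimit_unique (hF.1 (dig x) (dig_ge hx) x (dig_tendsto hx)) (qlimit_lim (dig_ge hx))

theorem F_unique {F G : ℝ → LaurentSeries ℚ} (hF : IsQDeformation F) (hG : IsQDeformation G) :
    F = G := by
  have key : ∀ n : ℕ, ∀ x : ℝ, 1 ≤ x + n → F x = G x := by
    intro n
    induction n with
    | zero =>
      intro x hx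
      have hx' : 1 ≤ x := by simpa using hx
      rw [F_eq_lim hF hx', F_eq_lim hG hx']
    | succ n ih =>
      intro x hx
      have h1 := hF.2 (x + 1)
      have h2 := hG.2 (x + 1)
      rw [add_sub_cancel_right] at h1 h2
      rw [h1, h2, ih (x + 1) (by push_cast at hx; linarith)]
  ext1 x
  obtain ⟨n, hn⟩ := exists_nat_ge (1 - x)
  exact key n x (by linarith)

theorem existsUnique : ∃! F, IsQDeformation F :=
  ⟨Fq, Fq_isQDeformation, fun _ hG => F_unique hG Fq_isQDeformation⟩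

end Pool.Agent.Y253.Qr
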