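import Mathlib
import Pool.Agent.Y253.Qr.Exist

set_option autoImplicit false

open Filter Topology PowerSeries

namespace Pool.Agent.Y253.Qr

/-- `1 / φ` -/
noncomputable def g : ℝ := (√5 - 1) / 2

theorem g_sq : g ^ 2 = 1 - g := by
  unfold g
  have h : √5 ^ 2 = 5 := Real.sq_sqrt (by norm_num)
  linear_combination h / 4

theorem g_pos : 0 < g := by
  unfold g
  have : (1:ℝ) < √5 := by
    rw [Real.lt_sqrt (by norm_num)]
    norm_num
  linarith

theorem g_lt : g < 1 := by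
  have h := g_sq
  have := g_pos
  nlinarith

theorem R_eq : (3 - √5) / 2 = g ^ 2 := by
  rw [g_sq]; unfold g; ring

/-- the truncations as functions -/
noncomputable def ev : ℕ → (ℕ → ℕ) → ℂ → ℂ
  | 0, c, z => ∑ i ∈ Finset.range (c 0), z ^ i
  | N + 1, c, z => ∑ i ∈ Finset.range (c 0), z ^ i - z ^ (c 0 - 1) / ev N (fun j => c (j + 1)) z

theorem step {z V : ℂ} (hz : ‖z‖ ≤ g ^ 2) (hV : ‖V‖ ≤ 1 + g) (k : ℕ) :
    ‖∑ i ∈ Finset.range (k + 1), z ^ i + z ^ (k + 1) * V - 1‖ ≤ g := by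
  have hg := g_pos
  have hb : g ^ 2 * (1 + g) = g := by
    have := g_sq
    nlinarith
  induction k with
  | zero =>
    have e : ∑ i ∈ Finset.range (0 + 1), z ^ i + z ^ (0 + 1) * V - 1 = z * V := by simp
    rw [e, norm_mul]
    calc ‖z‖ * ‖V‖ ≤ g ^ 2 * (1 + g) := by gcongr
      _ = g := hb
  | succ k ih =>
    have e : ∑ i ∈ Finset.range (k + 1 + 1), z ^ i + z ^ (k + 1 + 1) * V - 1 =
        z * (∑ i ∈ Finset.range (k + 1), z ^ i + z ^ (k + 1) * V) := by
      rw [Finset.sum_range_succ', mul_add, Finset.mul_sum]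
      simp only [pow_succ]
      have : ∑ x ∈ Finset.range (k + 1), z ^ x * z = ∑ x ∈ Finset.range (k + 1), z * z ^ x :=
        Finset.sum_congr rfl fun _ _ => mul_comm _ _
      rw [this]
      ring
    rw [e, norm_mul]
    have h1 : ‖∑ i ∈ Finset.range (k + 1), z ^ i + z ^ (k + 1) * V‖ ≤ 1 + g := by
      calc ‖∑ i ∈ Finset.range (k + 1), z ^ i + z ^ (k + 1) * V‖
          = ‖1 + (∑ i ∈ Finset.range (k + 1), z ^ i + z ^ (k + 1) * V - 1)‖ := by
            congr 1; ring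
        _ ≤ ‖(1:ℂ)‖ + ‖∑ i ∈ Finset.range (k + 1), z ^ i + z ^ (k + 1) * V - 1‖ := norm_add_le _ _
        _ ≤ 1 + g := by rw [norm_one]; gcongr
    calc ‖z‖ * _ ≤ g ^ 2 * (1 + g) := by gcongr
      _ = g := hb

theorem ne_of_bd {T : ℂ} (hT : ‖T - 1‖ ≤ g) : g ^ 2 ≤ ‖T‖ := by
  rw [g_sq]
  have : ‖(1:ℂ)‖ ≤ ‖T‖ + ‖T - 1‖ := by
    calc ‖(1:ℂ)‖ = ‖T - (T - 1)‖ := by rw [sub_sub_cancel]
      _ ≤ _ := norm_sub_le _ _
  rw [norm_one] at this
  linarith

theorem ev_bd (N : ℕ) : ∀ {c : ℕ → ℕ}, (∀ j, 2 ≤ c j) → ∀ {z : ℂ}, ‖z‖ ≤ g ^ 2 →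
    ‖ev N c z - 1‖ ≤ g := by
  have hg := g_pos
  induction N with
  | zero =>
    intro c hc z hz
    obtain ⟨k, hk⟩ : ∃ k, c 0 = k + 2 := ⟨c 0 - 2, by have := hc 0; omega⟩
    have h := step hz (V := 1) (by rw [norm_one]; linarith) k
    simp only [ev]
    rw [hk, Finset.sum_range_succ]
    simpa using h
  | succ N ih =>
    intro c hc z hz
    obtain ⟨k, hk⟩ : ∃ k, c 0 = k + 2 := ⟨c 0 - 2, by have := hc 0; omega⟩
    have hT := ih (c := fun j => c (j + 1)) (fun j => hc (j + 1)) hz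
    simp only [ev]
    set T := ev N (fun j => c (j + 1)) z with hTdef
    have hTn := ne_of_bd hT
    have hg2 : 0 < g ^ 2 := by positivity
    have hT0 : T ≠ 0 := norm_pos_iff.mp (lt_of_lt_of_le hg2 hTn)
    have hV : ‖1 - 1 / T‖ ≤ 1 + g := by
      have e : 1 - 1 / T = (T - 1) / T := by field_simp
      rw [e, norm_div]
      have : (1 + g) = g / g ^ 2 := by
        rw [eq_div_iff hg2.ne']
        have := g_sq
        nlinarith
      rw [this]
      gcongr
    have h := step hz hV k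
    rw [hk, Finset.sum_range_succ]
    have e : ∑ x ∈ Finset.range (k + 1), z ^ x + z ^ (k + 1) - z ^ (k + 2 - 1) / T - 1 =
        ∑ i ∈ Finset.range (k + 1), z ^ i + z ^ (k + 1) * (1 - 1 / T) - 1 := by
      have : k + 2 - 1 = k + 1 := by omega
      rw [this]
      ring
    rw [e]
    exact h

theorem ev_ne {N : ℕ} {c : ℕ → ℕ} (hc : ∀ j, 2 ≤ c j) {z : ℂ} (hz : ‖z‖ ≤ g ^ 2) : ev N c z ≠ 0 := by
  have h := ne_of_bd (ev_bd N hc hz)
  have hg := g_pos
  exact norm_pos_iff.mp (lt_of_lt_of_le (by positivity) h)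

theorem ev_diff (N : ℕ) : ∀ {c : ℕ → ℕ}, (∀ j, 2 ≤ c j) →
    DifferentiableOn ℂ (ev N c) (Metric.ball 0 (g ^ 2)) := by
  induction N with
  | zero =>
    intro c hc
    have e : ev 0 c = fun z => ∑ i ∈ Finset.range (c 0), z ^ i := by ext z; simp [ev]
    rw [e]
    apply Differentiable.differentiableOn
    fun_prop
  | succ N ih =>
    intro c hc
    have h := ih (c := fun j => c (j + 1)) (fun j => hc (j + 1))
    have e : ev (N + 1) c = fun z => ∑ i ∈ Finset.range (c 0), z ^ i -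
        z ^ (c 0 - 1) / ev N (fun j => c (j + 1)) z := by ext z; simp [ev]
    rw [e]
    apply DifferentiableOn.sub
    · apply Differentiable.differentiableOn
      fun_prop
    · apply DifferentiableOn.div _ h
      · intro z hz
        exact ev_ne (fun j => hc (j + 1)) (by simpa using (Metric.mem_ball.mp hz).le)
      · apply Differentiable.differentiableOn
        fun_prop

theorem ev_an {N : ℕ} {c : ℕ → ℕ} (hc : ∀ j, 2 ≤ c j) : AnalyticAt ℂ (ev N c) 0 := by
  have hg := g_pos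
  exact (ev_diff N hc).analyticAt (Metric.ball_mem_nhds 0 (by positivity))

/-- the Taylor series at `0` -/
noncomputable def T (f : ℂ → ℂ) : ℂ⟦X⟧ := PowerSeries.mk fun n => iteratedDeriv n f 0 / (n.factorial : ℂ)

theorem T_congr {f h : ℂ → ℂ} (hfh : f =ᶠ[𝓝 0] h) : T f = T h := by
  unfold T
  congr 1
  ext n
  rw [hfh.iteratedDeriv_eq n]

theorem T_mul {f h : ℂ → ℂ} (hf : AnalyticAt ℂ f 0) (hh : AnalyticAt ℂ h 0) :
    T (fun z => f z * h z) = T f * T h := by
  ext n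
  rw [coeff_mul]
  unfold T
  simp only [coeff_mk]
  rw [iteratedDeriv_fun_mul hf.contDiffAt hh.contDiffAt, Finset.Nat.sum_antidiagonal_eq_sum_range_succ
    (fun i j => iteratedDeriv i f 0 / (i.factorial : ℂ) * (iteratedDeriv j h 0 / (j.factorial : ℂ))),
    Finset.sum_div]
  refine Finset.sum_congr rfl fun i hi => ?_
  have hi' : i ≤ n := by
    have := Finset.mem_range.mp hi
    omega
  rw [Nat.cast_choose ℂ hi']
  have h1 : (i.factorial : ℂ) ≠ 0 := by exact_mod_cast i.factorial_ne_zero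
  have h2 : ((n - i).factorial : ℂ) ≠ 0 := by exact_mod_cast (n - i).factorial_ne_zero
  have h3 : (n.factorial : ℂ) ≠ 0 := by exact_mod_cast n.factorial_ne_zero
  field_simp

theorem T_sub {f h : ℂ → ℂ} (hf : AnalyticAt ℂ f 0) (hh : AnalyticAt ℂ h 0) :
    T (fun z => f z - h z) = T f - T h := by
  ext n
  unfold T
  rw [map_sub]
  simp only [coeff_mk]
  rw [iteratedDeriv_fun_sub hf.contDiffAt hh.contDiffAt, sub_div]

theorem T_add {f h : ℂ → ℂ} (hf : AnalyticAt ℂ f 0) (hh : AnalyticAt ℂ h 0) :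
    T (fun z => f z + h z) = T f + T h := by
  ext n
  unfold T
  rw [map_add]
  simp only [coeff_mk]
  rw [iteratedDeriv_fun_add hf.contDiffAt hh.contDiffAt, add_div]

theorem T_pow (m : ℕ) : T (fun z => z ^ m) = X ^ m := by
  ext n
  unfold T
  rw [coeff_mk, coeff_X_pow, iteratedDeriv_fun_pow_zero]
  have h3 : (n.factorial : ℂ) ≠ 0 := by exact_mod_cast n.factorial_ne_zero
  split_ifs with h
  · subst h
    exact div_self h3
  · simp

theorem T_geom (m : ℕ) : T (fun z => ∑ i ∈ Finset.range m, z ^ i) = ∑ i ∈ Finset.range m, X ^ i := by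
  induction m with
  | zero =>
    ext n
    simp [T]
  | succ m ih =>
    simp only [Finset.sum_range_succ]
    rw [T_add (by fun_prop) (by fun_prop), ih, T_pow]

/-- the coefficients -/
noncomputable def mp : ℚ⟦X⟧ →+* ℂ⟦X⟧ := PowerSeries.map (algebraMap ℚ ℂ)

theorem mp_qI (n : ℕ) : mp (qI n) = ∑ i ∈ Finset.range n, X ^ i := by
  unfold qI mp
  simp

theorem T_ev (N : ℕ) : ∀ {c : ℕ → ℕ}, (∀ j, 2 ≤ c j) → T (ev N c) = mp (pt N c) := by
  have hg := g_pos
  induction N with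
  | zero =>
    intro c hc
    have e : ev 0 c = fun z => ∑ i ∈ Finset.range (c 0), z ^ i := by ext z; simp [ev]
    rw [e, T_geom]
    simp only [pt]
    rw [mp_qI]
  | succ N ih =>
    intro c hc
    have hc' : ∀ j, 2 ≤ (fun j => c (j + 1)) j := fun j => hc (j + 1)
    have hi := ih hc'
    have h1 : (fun z => ev (N + 1) c z * ev N (fun j => c (j + 1)) z) =ᶠ[𝓝 0]
        (fun z => (∑ i ∈ Finset.range (c 0), z ^ i) * ev N (fun j => c (j + 1)) z - z ^ (c 0 - 1)) := by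
      filter_upwards [Metric.ball_mem_nhds (0:ℂ) (show 0 < g ^ 2 by positivity)] with z hz
      have hne := ev_ne (N := N) hc' (z := z) (by simpa using (Metric.mem_ball.mp hz).le)
      simp only [ev]
      field_simp
    have hA : AnalyticAt ℂ (fun z : ℂ => ∑ i ∈ Finset.range (c 0), z ^ i) 0 := by fun_prop
    have hB : AnalyticAt ℂ (fun z : ℂ => z ^ (c 0 - 1)) 0 := by fun_prop
    have h2 := T_congr h1
    have hAB : AnalyticAt ℂ (fun z : ℂ => (∑ i ∈ Finset.range (c 0), z ^ i) *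
        ev N (fun j => c (j + 1)) z) 0 := hA.mul (ev_an hc')
    rw [T_mul (ev_an hc) (ev_an hc'), T_sub hAB hB, T_mul hA (ev_an hc'), T_geom,
      T_pow, hi] at h2
    have h3 : mp (pt N (fun j => c (j + 1))) * mp (pt N (fun j => c (j + 1)))⁻¹ = 1 := by
      rw [← map_mul, pt_mul_inv hc', map_one]
    have h4 : mp (pt (N + 1) c) = (∑ i ∈ Finset.range (c 0), X ^ i) -
        X ^ (c 0 - 1) * mp (pt N (fun j => c (j + 1)))⁻¹ := by
      simp only [pt]
      rw [map_sub, map_mul, mp_qI, map_pow]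
      congr 3
      unfold mp
      simp
    rw [h4]
    calc T (ev (N + 1) c) = (T (ev (N + 1) c) * mp (pt N (fun j => c (j + 1)))) *
          mp (pt N (fun j => c (j + 1)))⁻¹ := by rw [mul_assoc, h3, mul_one]
      _ = _ := by
        rw [h2]
        linear_combination (∑ i ∈ Finset.range (c 0), X ^ i) * h3

theorem coeff_bd {N : ℕ} {c : ℕ → ℕ} (hc : ∀ j, 2 ≤ c j) {r : ℝ} (hr0 : 0 < r) (hr : r < g ^ 2)
    (n : ℕ) : ‖((coeff n (pt N c) : ℚ) : ℂ)‖ * r ^ n ≤ 1 + g := by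
  have h1 : ((coeff n (pt N c) : ℚ) : ℂ) = iteratedDeriv n (ev N c) 0 / (n.factorial : ℂ) := by
    have := congrArg (coeff n) (T_ev N hc)
    rw [T, coeff_mk] at this
    rw [this]
    unfold mp
    simp
  have h2 : ‖iteratedDeriv n (ev N c) 0‖ ≤ n.factorial * (1 + g) / r ^ n := by
    apply Complex.norm_iteratedDeriv_le_of_forall_mem_sphere_norm_le n hr0
    · apply DifferentiableOn.diffContOnCl
      refine (ev_diff N hc).mono ?_
      rw [closure_ball _ hr0.ne']
      exact Metric.closedBall_subset_ball hr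
    · intro z hz
      have hz' : ‖z‖ ≤ g ^ 2 := by
        have : ‖z‖ = r := by simpa using hz
        linarith
      have h := ev_bd N hc hz'
      calc ‖ev N c z‖ = ‖1 + (ev N c z - 1)‖ := by congr 1; ring
        _ ≤ ‖(1:ℂ)‖ + ‖ev N c z - 1‖ := norm_add_le _ _
        _ ≤ 1 + g := by rw [norm_one]; gcongr
  have h3 : (0:ℝ) < n.factorial := by exact_mod_cast n.factorial_pos
  rw [h1, norm_div, Complex.norm_natCast, div_mul_eq_mul_div, div_le_iff₀ h3]
  have hrn : 0 < r ^ n := by positivity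
  rw [le_div_iff₀ hrn] at h2
  linarith

theorem lim_bd {c : ℕ → ℕ} (hc : ∀ j, 2 ≤ c j) {r : ℝ} (hr0 : 0 < r) (hr : r < g ^ 2)
    (n : ℕ) : ‖((coeff n (lim c) : ℚ) : ℂ)‖ * r ^ n ≤ 1 + g := by
  rw [← coeff_pt hc le_rfl]
  exact coeff_bd hc hr0 hr n

/-- the coefficient bound for all real numbers -/
theorem F_bd {F : ℝ → LaurentSeries ℚ} (hF : IsQDeformation F) {r : ℝ} (hr0 : 0 < r)
    (hr : r < g ^ 2) (k : ℕ) : ∀ x : ℝ, 1 ≤ x + k → ∃ C : ℝ, ∀ n : ℕ,
      ‖(((F x).coeff (n : ℤ) : ℚ) : ℂ)‖ * r ^ n ≤ C := by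
  induction k with
  | zero =>
    intro x hx
    have hx' : 1 ≤ x := by simpa using hx
    refine ⟨1 + g, fun n => ?_⟩
    rw [F_eq_lim hF hx', LaurentSeries.coeff_coe_powerSeries]
    exact lim_bd (dig_ge hx') hr0 hr n
  | succ k ih =>
    intro x hx
    obtain ⟨C, hC⟩ := ih (x + 1) (by push_cast at hx; linarith)
    refine ⟨C / r, fun n => ?_⟩
    have h1 := hF.2 (x + 1)
    rw [add_sub_cancel_right] at h1
    have h2 : (F x).coeff (n : ℤ) = (F (x + 1)).coeff ((n + 1 : ℕ) : ℤ) := by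
      have e : F (x + 1) = 1 + HahnSeries.single 1 1 * F x := by
        rw [h1, ← mul_assoc]
        have : (HahnSeries.single (1:ℤ) (1:ℚ)) * q⁻¹ = 1 := mul_inv_cancel₀ q_ne
        rw [this]
        ring
      rw [e, HahnSeries.coeff_add]
      have e2 : (1 : LaurentSeries ℚ).coeff ((n + 1 : ℕ) : ℤ) = 0 := by
        rw [HahnSeries.coeff_one, if_neg (by omega)]
      have e3 : ((HahnSeries.single (1:ℤ) (1:ℚ)) * F x).coeff ((n + 1 : ℕ) : ℤ) = (F x).coeff (n : ℤ) := by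
        have := HahnSeries.coeff_single_mul_add (r := (1:ℚ)) (x := F x) (a := (n:ℤ)) (b := (1:ℤ))
        rw [one_mul] at this
        rw [← this]
        congr 1
      rw [e2, e3, zero_add]
    rw [h2, le_div_iff₀ hr0]
    have := hC (n + 1)
    calc _ = ‖(((F (x + 1)).coeff ((n + 1 : ℕ) : ℤ) : ℚ) : ℂ)‖ * r ^ (n + 1) := by rw [pow_succ]; ring
      _ ≤ C := this

theorem radius_ge {F : ℝ → LaurentSeries ℚ} (hF : IsQDeformation F) (x : ℝ) :
    ENNReal.ofReal ((3 - √5) / 2) ≤ radius (F x) := by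
  rw [R_eq]
  apply ENNReal.le_of_forall_nnreal_lt
  intro r hr
  rcases eq_or_lt_of_le (show 0 ≤ r from r.2) with h0 | h0
  · rw [← h0]; simp
  have hr' : (r : ℝ) < g ^ 2 := by
    rw [ENNReal.ofReal, ENNReal.coe_lt_coe] at hr
    exact Real.lt_toNNReal_iff_coe_lt.mp hr
  obtain ⟨k, hk⟩ := exists_nat_ge (1 - x)
  obtain ⟨C, hC⟩ := F_bd hF (r := r) (by exact_mod_cast h0) hr' k x (by linarith)
  apply FormalMultilinearSeries.le_radius_of_bound _ C
  intro n
  rw [FormalMultilinearSeries.ofScalars_norm]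
  exact hC n

end Pool.Agent.Y253.Qr
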